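import Pool.Agent.H77R2.Cubes
import Pool.Agent.H77R2.Eval

/-!
# The relation ideal of the associated Lie ring of a free Burnside group of exponent nine

Let `F` be the free group on a set `X` with at least three elements, `N` the fully invariant
subgroup given by the law `x ^ 9 = 1`, and `L` the free Lie ring on `X`.  The kernel `J` of the
natural homomorphism from `L` onto the associated Lie ring of `F / N` is not fully invariant.

* `rel_lie` (file `H77R2/Cubes.lean`): if `G` has exponent `9` and `c ∈ γ_2(G)` then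
  `∑ ad(ℓ)^8 c = 0` in the associated Lie ring, the sum being over `ℓ = a + b, a - b, a, b`.
* `witness_ne_zero` (file `H77R2/Eval.lean`): in the associated Lie ring of a certain finite group
  of exponent `9` and class at most `13`, the sum `∑ ad(ℓ)^8 [A, C]` over
  `ℓ = A + B, A - B, A, B` is not zero when `A` is replaced by `A + [A, B]`.
-/

namespace Pool.Agent.Results.MP_21427b_al.NotFullyInvariant

open BurnLie
open scoped commutatorElement

universe u

/-- The fully invariant subgroup `N` of the free group on `X` given by the law `x ^ q = 1`: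
the subgroup generated by (the conjugates of) all `q`-th powers. -/
def lawSubgroup (q : ℕ) (X : Type u) : Subgroup (FreeGroup X) :=
  Subgroup.normalClosure (Set.range fun g : FreeGroup X => g ^ q)

instance (q : ℕ) (X : Type u) : (lawSubgroup q X).Normal := Subgroup.normalClosure_normal

/-- The relatively free group `F / N` of the Burnside variety of exponent `q`, with free
generators indexed by `X`. -/
abbrev BurnsideGroup (q : ℕ) (X : Type u) : Type u := FreeGroup X ⧸ lawSubgroup q X

/-- The element `x N γ_2(F / N)` of degree one of the associated Lie ring of `F / N`. -/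
noncomputable def genClass (q : ℕ) (X : Type u) (x : X) : AssocLie (BurnsideGroup q X) :=
  mkL 0 ⟨(FreeGroup.of x : BurnsideGroup q X), Subgroup.mem_top _⟩

/-- The homomorphism from the free Lie ring `L` on `X` to the associated Lie ring of `F / N` which
sends the free generator indexed by `x` to `x N γ_2(F / N)`. -/
noncomputable def presentation (q : ℕ) (X : Type u) :
    FreeLieAlgebra ℤ X →ₗ⁅ℤ⁆ AssocLie (BurnsideGroup q X) :=
  FreeLieAlgebra.lift ℤ (genClass q X)

/-- The ideal `J` of the free Lie ring `L` on `X`, so that `L / J` is the associated Lie ring of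
`F / N`. -/
noncomputable def relationIdeal (q : ℕ) (X : Type u) : LieIdeal ℤ (FreeLieAlgebra ℤ X) :=
  (presentation q X).ker

/-- An ideal `J` of a Lie ring `L` is fully invariant if `φ(J) ⊆ J` for every endomorphism `φ` of
the Lie ring `L`. -/
def IsFullyInvariant {L : Type u} [LieRing L] (J : LieIdeal ℤ L) : Prop :=
  ∀ φ : L →ₗ⁅ℤ⁆ L, ∀ u ∈ J, φ u ∈ J

theorem genClass_eq (q : ℕ) (X : Type u) (x : X) :
    genClass q X x = cls 1 (FreeGroup.of x : BurnsideGroup q X) :=
  (cls_of_mem (w := 1) (mem_Gam_one _)).symm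

theorem pow_nine_eq (X : Type u) (g : BurnsideGroup 9 X) : g ^ 9 = 1 := by
  obtain ⟨g, rfl⟩ := QuotientGroup.mk_surjective g
  rw [← QuotientGroup.mk_pow]
  exact (QuotientGroup.eq_one_iff _).2 (Subgroup.subset_normalClosure ⟨g, rfl⟩)

theorem map_ad8 {L L' : Type*} [LieRing L] [LieRing L'] (f : L →ₗ⁅ℤ⁆ L') (X C : L) :
    f (ad8 X C) = ad8 (f X) (f C) := by
  have : ∀ n : ℕ, f ((fun z => ⁅X, z⁆)^[n] C) = (fun z => ⁅f X, z⁆)^[n] (f C) := by
    intro n
    induction n with
    | zero => rfl
    | succ n ih =>
      rw [Function.iterate_succ_apply', Function.iterate_succ_apply', LieHom.map_lie, ih]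
  exact this 8

/-- The relation `∑ ad(ℓ)^8 [y, x]`, the sum being over `ℓ = y + z, y - z, y, z`. -/
def rel {L : Type*} [LieRing L] (x y z : L) : L :=
  ad8 (y + z) ⁅y, x⁆ + ad8 (y - z) ⁅y, x⁆ + ad8 y ⁅y, x⁆ + ad8 z ⁅y, x⁆

theorem map_rel {L L' : Type*} [LieRing L] [LieRing L'] (f : L →ₗ⁅ℤ⁆ L') (x y z : L) :
    f (rel x y z) = rel (f x) (f y) (f z) := by
  simp only [rel, map_add, map_ad8, map_sub, LieHom.map_lie]

/-- **Theorem.** For every set `X` with at least three elements, the ideal `J` of the free Lie ring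
on `X` defined by the relatively free group of exponent `9` on `X` is not fully invariant. -/
theorem result (X : Type u) (hX : ∃ x y z : X, x ≠ y ∧ x ≠ z ∧ y ≠ z) :
    ¬ IsFullyInvariant (relationIdeal 9 X) := by
  classical
  obtain ⟨x, y, z, hxy, hxz, hyz⟩ := hX
  intro hJ
  let of : X → FreeLieAlgebra ℤ X := FreeLieAlgebra.of ℤ
  let u : FreeLieAlgebra ℤ X := rel (of x) (of y) (of z)
  have hof : ∀ t : X, presentation 9 X (of t) = cls 1 (FreeGroup.of t : BurnsideGroup 9 X) := by
    intro t
    rw [← genClass_eq]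
    exact FreeLieAlgebra.lift_of_apply _ t
  -- the element `u` lies in `J`
  have hu : u ∈ relationIdeal 9 X := by
    refine LieHom.mem_ker.2 ?_
    change presentation 9 X (rel (of x) (of y) (of z)) = 0
    rw [map_rel, hof, hof, hof]
    have h := rel_lie (pow_nine_eq X) (FreeGroup.of y : BurnsideGroup 9 X)
      (FreeGroup.of z : BurnsideGroup 9 X)
      (c := ⁅(FreeGroup.of y : BurnsideGroup 9 X), (FreeGroup.of x : BurnsideGroup 9 X)⁆)
      (Gam_comm (i := 1) (j := 1) (mem_Gam_one _) (mem_Gam_one _))
    rw [cls_lie' (i := 1) (j := 1) (by norm_num) (by norm_num) (mem_Gam_one _) (mem_Gam_one _)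
      rfl] at h
    exact h
  -- the endomorphism
  let φ : FreeLieAlgebra ℤ X →ₗ⁅ℤ⁆ FreeLieAlgebra ℤ X :=
    FreeLieAlgebra.lift ℤ (fun t => if t = y then of y + ⁅of y, of z⁆ else of t)
  have hφ : ∀ t : X, φ (of t) = if t = y then of y + ⁅of y, of z⁆ else of t := fun t =>
    FreeLieAlgebra.lift_of_apply (R := ℤ) _ t
  have φx : φ (of x) = of x := by rw [hφ, if_neg hxy]
  have φy : φ (of y) = of y + ⁅of y, of z⁆ := by rw [hφ, if_pos rfl]
  have φz : φ (of z) = of z := by rw [hφ, if_neg hyz.symm]
  have h0 : presentation 9 X (φ u) = 0 := LieHom.mem_ker.1 (hJ φ u hu)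
  -- the witness group
  let w : X → QG := fun t =>
    if t = x then io f0 f0_Md else if t = y then et aa else if t = z then et bb else 1
  let ψ : FreeGroup X →* QG := FreeGroup.lift w
  have hψ : lawSubgroup 9 X ≤ ψ.ker := by
    refine Subgroup.normalClosure_le_normal ?_
    rintro _ ⟨g, rfl⟩
    change ψ (g ^ 9) = 1
    rw [map_pow, QG_pow_nine]
  let f : BurnsideGroup 9 X →* QG := QuotientGroup.lift _ ψ hψ
  have hf : ∀ t : X, f (FreeGroup.of t : BurnsideGroup 9 X) = w t := by
    intro t
    change ψ (FreeGroup.of t) = w t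
    exact FreeGroup.lift_apply_of
  have h1 : mapLie f (presentation 9 X (φ u)) = 0 := by rw [h0, map_zero]
  have e1 : mapLie f (presentation 9 X (φ u)) =
      rel (cls 1 (io f0 f0_Md)) (cls 1 (et aa) + ⁅cls 1 (et aa), cls 1 (et bb)⁆)
        (cls 1 (et bb)) := by
    change mapLie f (presentation 9 X (φ (rel (of x) (of y) (of z)))) = _
    rw [map_rel, map_rel, map_rel, φx, φy, φz, map_add, map_add, LieHom.map_lie, LieHom.map_lie,
      hof, hof, hof, mapLie_cls f (mem_Gam_one _), mapLie_cls f (mem_Gam_one _),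
      mapLie_cls f (mem_Gam_one _), hf, hf, hf]
    have wx : w x = io f0 f0_Md := by simp [w]
    have wy : w y = et aa := by simp [w, hxy.symm]
    have wz : w z = et bb := by simp [w, hxz.symm, hyz.symm]
    rw [wx, wy, wz]
  rw [e1] at h1
  exact witness_ne_zero _ _ _ _ _ rfl rfl rfl rfl rfl h1

end Pool.Agent.Results.MP_21427b_al.NotFullyInvariant
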